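import Pool.Agent.H22.QZ.Uni

/-!
# Quadratic algebras over an arbitrary commutative ring
-/

set_option autoImplicit false

namespace Pool.Agent.H22.QZ

open Pool.Agent.TH40.Quad Pool.Agent.Y162.GQ

universe u

section
variable {K : Type u} [CommRing K] {n d : ℕ}

/-- The `k`-th quadratic relation `∑ x_{kij} x_i x_j` with coefficients `x_{kij}` in the
commutative ring `K`. -/
noncomputable def quad (x : Fin d × Fin n × Fin n → K) (k : Fin d) : FreeAlgebra K (Fin n) :=
  ∑ i, ∑ j, x (k, i, j) • (FreeAlgebra.ι K i * FreeAlgebra.ι K j)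

/-- All relations are set to zero. -/
def Rel (x : Fin d × Fin n × Fin n → K) (u v : FreeAlgebra K (Fin n)) : Prop :=
  ∃ k, u = quad x k ∧ v = 0

/-- The quadratic algebra `K⟨x_1, …, x_n⟩ / (r_1, …, r_d)` with the relations `quad x`. -/
abbrev QuadAlg (x : Fin d × Fin n × Fin n → K) : Type u := RingQuot (Rel x)

/-- The generator `x_i` of the quadratic algebra. -/
noncomputable def gen (x : Fin d × Fin n × Fin n → K) (i : Fin n) : QuadAlg x :=
  RingQuot.mkAlgHom K (Rel x) (FreeAlgebra.ι K i)

theorem quad_mem (x : Fin d × Fin n × Fin n → K) (k : Fin d) :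
    quad x k ∈ Submodule.span K (Set.range fun p : Fin n × Fin n =>
      FreeAlgebra.ι K p.1 * FreeAlgebra.ι K p.2) := by
  unfold quad
  refine Submodule.sum_mem _ (fun i _ => Submodule.sum_mem _ (fun j _ => ?_))
  exact Submodule.smul_mem _ _ (Submodule.subset_span ⟨(i, j), rfl⟩)

theorem li_mono (K : Type u) [CommRing K] (n : ℕ) : LinearIndependent K (fun p : Fin n × Fin n =>
    (FreeAlgebra.ι K p.1 * FreeAlgebra.ι K p.2 : FreeAlgebra K (Fin n))) := by
  have hb := (FreeAlgebra.basisFreeMonoid K (Fin n)).linearIndependent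
  have hinj : Function.Injective (fun p : Fin n × Fin n =>
      (FreeMonoid.of p.1 * FreeMonoid.of p.2 : FreeMonoid (Fin n))) := by
    rintro ⟨a, b⟩ ⟨c, d⟩ h
    have h' := congrArg FreeMonoid.toList h
    simp at h'
    ext <;> simp [h'.1, h'.2]
  have h2 := hb.comp _ hinj
  have h3 : (FreeAlgebra.basisFreeMonoid K (Fin n)) ∘ (fun p : Fin n × Fin n =>
      (FreeMonoid.of p.1 * FreeMonoid.of p.2 : FreeMonoid (Fin n))) =
      fun p : Fin n × Fin n => (FreeAlgebra.ι K p.1 * FreeAlgebra.ι K p.2) := by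
    funext p
    simp only [Function.comp_apply, FreeAlgebra.basisFreeMonoid]
    change FreeAlgebra.equivMonoidAlgebraFreeMonoid.symm
      (MonoidAlgebra.single (FreeMonoid.of p.1 * FreeMonoid.of p.2) 1) = _
    rw [AlgEquiv.symm_apply_eq, map_mul]
    simp [FreeAlgebra.equivMonoidAlgebraFreeMonoid, MonoidAlgebra.single_mul_single]
  rwa [h3] at h2

theorem li_quad (x : Fin d × Fin n × Fin n → K)
    (hc : ∀ a : Fin d → K, (∀ i j, ∑ k, a k * x (k, i, j) = 0) → ∀ k, a k = 0) :
    LinearIndependent K (quad x) := by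
  rw [Fintype.linearIndependent_iff]
  intro a ha
  refine hc a (fun i j => ?_)
  have h1 := Fintype.linearIndependent_iff.1 (li_mono K n)
    (fun p => ∑ k, a k * x (k, p.1, p.2)) ?_
  · exact h1 (i, j)
  · rw [← ha]
    unfold quad
    simp_rw [Finset.sum_smul, Finset.smul_sum]
    rw [Finset.sum_comm]
    refine Finset.sum_congr rfl fun k _ => ?_
    rw [Fintype.sum_prod_type]
    refine Finset.sum_congr rfl fun i _ => Finset.sum_congr rfl fun j _ => ?_
    rw [mul_smul]

theorem gen_rel (x : Fin d × Fin n × Fin n → K) (k : Fin d) :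
    ∑ i, ∑ j, x (k, i, j) • (gen x i * gen x j) = 0 := by
  have h : RingQuot.mkAlgHom K (Rel x) (quad x k) = RingQuot.mkAlgHom K (Rel x) 0 :=
    RingQuot.mkAlgHom_rel K ⟨k, rfl, rfl⟩
  rw [map_zero] at h
  rw [← h]
  unfold quad gen
  simp only [map_sum, map_smul, map_mul]

theorem finite_of_words (x : Fin d × Fin n × Fin n → K) (N : ℕ)
    (hN : ∀ l : List (Fin n), l.length = N → (l.map (gen x)).prod = 0) :
    Module.Finite K (QuadAlg x) := by
  let π : FreeAlgebra K (Fin n) →ₐ[K] QuadAlg x := RingQuot.mkAlgHom K (Rel x)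
  have hπ : Function.Surjective π := RingQuot.mkAlgHom_surjective K _
  let wd : List (Fin n) → QuadAlg x := fun l => (l.map (gen x)).prod
  have hwd : ∀ l l', wd (l ++ l') = wd l * wd l' := by
    intro l l'
    simp [wd]
  have hcons : ∀ i l, wd (i :: l) = gen x i * wd l := by
    intro i l
    simp [wd]
  have hzero' : ∀ l : List (Fin n), N ≤ l.length → wd l = 0 := by
    intro l hl
    have : l = l.take N ++ l.drop N := (List.take_append_drop N l).symm
    rw [this, hwd]
    have h1 : wd (l.take N) = 0 := hN (l.take N) (by rw [List.length_take]; omega)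
    rw [h1, zero_mul]
  let S : Submodule K (QuadAlg x) := Submodule.span K (wd '' {l | l.length < N})
  have hmem : ∀ l, wd l ∈ S := by
    intro l
    by_cases hl : l.length < N
    · exact Submodule.subset_span ⟨l, hl, rfl⟩
    · rw [hzero' l (by omega)]; exact S.zero_mem
  have hone : (1 : QuadAlg x) ∈ S := by
    have : wd [] = 1 := by simp [wd]
    rw [← this]; exact hmem []
  have hletter : ∀ (i : Fin n) (s : QuadAlg x), s ∈ S → gen x i * s ∈ S := by
    intro i s hs
    have hle : S ≤ S.comap (LinearMap.mulLeft K (gen x i)) := by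
      refine Submodule.span_le.mpr ?_
      rintro _ ⟨l, _, rfl⟩
      change gen x i * wd l ∈ S
      rw [← hcons]; exact hmem _
    exact hle hs
  have hall : ∀ (a : FreeAlgebra K (Fin n)) (s : QuadAlg x), s ∈ S → π a * s ∈ S := by
    intro a
    induction a using FreeAlgebra.induction with
    | grade0 r =>
      intro s hs
      rw [AlgHom.commutes, ← Algebra.smul_def]
      exact S.smul_mem _ hs
    | grade1 i => exact hletter i
    | mul a b ha hb =>
      intro s hs
      rw [map_mul, mul_assoc]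
      exact ha _ (hb _ hs)
    | add a b ha hb =>
      intro s hs
      rw [map_add, add_mul]
      exact S.add_mem (ha _ hs) (hb _ hs)
  have htop : S = ⊤ := by
    rw [Submodule.eq_top_iff']
    intro y
    obtain ⟨a, rfl⟩ := hπ y
    have := hall a 1 hone
    rwa [mul_one] at this
  have hfin : (wd '' {l | l.length < N}).Finite :=
    (List.finite_length_lt (Fin n) N).image _
  have : Module.Finite K S := Module.Finite.span_of_finite K hfin
  rw [htop] at this
  exact Module.Finite.equiv (Submodule.topEquiv (R := K) (M := QuadAlg x))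

end

/-- the minor of the coefficients belonging to `σ` -/
noncomputable def cdet {A : Type*} [CommRing A] {n d : ℕ} (σ : Fin d → Fin n × Fin n)
    (x : Fin d × Fin n × Fin n → A) : A :=
  Matrix.det (Matrix.of fun k k' => x (k, (σ k').1, (σ k').2))

theorem map_cdet {A B : Type*} [CommRing A] [CommRing B] (φ : A →+* B) {n d : ℕ}
    (σ : Fin d → Fin n × Fin n) (x : Fin d × Fin n × Fin n → A) :
    φ (cdet σ x) = cdet σ (fun y => φ (x y)) := by
  unfold cdet
  rw [RingHom.map_det]
  rfl

theorem indep_of_cdet {K : Type*} [CommRing K] {n d : ℕ} (σ : Fin d → Fin n × Fin n)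
    (x : Fin d × Fin n × Fin n → K) (h : IsUnit (cdet σ x)) (a : Fin d → K)
    (ha : ∀ i j, ∑ k, a k * x (k, i, j) = 0) : ∀ k, a k = 0 := by
  have h1 : Matrix.vecMul a (Matrix.of fun k k' => x (k, (σ k').1, (σ k').2)) = 0 := by
    funext k'
    change ∑ k, a k * x (k, (σ k').1, (σ k').2) = 0
    exact ha _ _
  have h2 : Function.Injective
      (Matrix.of fun k k' => x (k, (σ k').1, (σ k').2)).vecMul :=
    Matrix.vecMul_injective_of_isUnit ((Matrix.isUnit_iff_isUnit_det _).2 h)
  have h3 : a = 0 := h2 (by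
    change Matrix.vecMul a (Matrix.of fun k k' => x (k, (σ k').1, (σ k').2)) =
      Matrix.vecMul 0 (Matrix.of fun k k' => x (k, (σ k').1, (σ k').2))
    rw [h1, Matrix.zero_vecMul])
  intro k
  rw [h3]
  rfl

/-- the minor is invertible if the rows are independent over every ring -/
theorem isUnit_cdet {n d : ℕ} (σ : Fin d → Fin n × Fin n) (c : Fin d → Fin n → Fin n → ℤ)
    (h : ∀ (K : Type) [CommRing K] (a : Fin d → K),
          (∀ k', ∑ k, a k * ((c k (σ k').1 (σ k').2 : ℤ) : K) = 0) → ∀ k, a k = 0) :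
    IsUnit (cdet σ (fun y => c y.1 y.2.1 y.2.2)) := by
  by_contra hne
  rw [Int.isUnit_iff_natAbs_eq] at hne
  obtain ⟨p, hp, hdvd⟩ := Nat.exists_prime_and_dvd hne
  have : Fact p.Prime := ⟨hp⟩
  have h1 : ((cdet σ (fun y => c y.1 y.2.1 y.2.2) : ℤ) : ZMod p) = 0 :=
    (ZMod.intCast_zmod_eq_zero_iff_dvd _ p).2 (Int.natCast_dvd.2 hdvd)
  have h2 : cdet σ (fun y : Fin d × Fin n × Fin n => ((c y.1 y.2.1 y.2.2 : ℤ) : ZMod p)) = 0 := by
    rw [← h1]
    exact (map_cdet (Int.castRingHom (ZMod p)) σ _).symm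
  unfold cdet at h2
  obtain ⟨a, ha0, ha⟩ := Matrix.exists_vecMul_eq_zero_iff.2 h2
  apply ha0
  funext k
  refine h (ZMod p) a (fun k' => ?_) k
  exact congrFun ha k'

end Pool.Agent.H22.QZ
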