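import Pool.Graph.R_seed8.Y162.GQ.Alg

/-!
# Quadratic algebras over `ℤ`: the integral relations of the recursion
-/

set_option autoImplicit false

namespace Pool.Agent.H22.QZ

open Pool.Agent.TH40.Quad Pool.Agent.Y162.GQ

/-- the images of integral relations in a ring -/
def cst (K : Type*) [Ring K] {ι κ : Type} (R : κ → ι → ι → ℤ) : κ → ι → ι → K :=
  fun k i j => ((R k i j : ℤ) : K)

/-- the images of integral numbers in a ring -/
def cs (K : Type*) [Ring K] {κ : Type} (ξ : κ → ℤ) : κ → K := fun k => ((ξ k : ℤ) : K)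

/-- integral form of `extR` -/
def extZ {ι κ : Type} [DecidableEq ι] (R : κ → ι → ι → ℤ) (ξ η : κ → ℤ) :
    κ ⊕ Option ι → ι ⊕ Bool → ι ⊕ Bool → ℤ
  | Sum.inl k, Sum.inl i, Sum.inl j => R k i j
  | Sum.inl k, Sum.inr false, Sum.inr false => - ξ k
  | Sum.inl k, Sum.inr true, Sum.inr true => - η k
  | Sum.inr none, Sum.inr true, Sum.inr false => 1
  | Sum.inr (some x), Sum.inl i, Sum.inr false => if i = x then 1 else 0
  | Sum.inr (some x), Sum.inr true, Sum.inl i => if i = x then -1 else 0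
  | _, _, _ => 0

def xiZ {ι κ : Type} (ξ η : κ → ℤ) : κ ⊕ Option ι → ℤ
  | Sum.inl k => ξ k + η k
  | Sum.inr none => 1
  | Sum.inr (some _) => 0

def etZ {ι κ : Type} (η : κ → ℤ) : κ ⊕ Option ι → ℤ
  | Sum.inl k => η k
  | Sum.inr _ => 0

def R2Z : Bool → Bool → Bool → ℤ
  | false, true, false => 1
  | true, false, false => 1
  | true, true, true => -1
  | _, _, _ => 0

def xi2Z : Bool → ℤ
  | false => 1
  | true => 0

def et2Z : Bool → ℤ
  | false => 0
  | true => 1

def R3Z : Option Bool → Unit ⊕ Bool → Unit ⊕ Bool → ℤ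
  | none, Sum.inr true, Sum.inr false => 1
  | some false, Sum.inl _, Sum.inl _ => 1
  | some false, Sum.inr true, Sum.inl _ => -1
  | some false, Sum.inr false, Sum.inl _ => -1
  | some false, Sum.inr false, Sum.inr false => 1
  | some false, Sum.inr true, Sum.inr true => 1
  | some true, Sum.inl _, Sum.inr false => 1
  | some true, Sum.inr true, Sum.inl _ => -1
  | _, _, _ => 0

def xi3Z : Option Bool → ℤ
  | none => 1
  | some _ => 0

def et3Z : Option Bool → ℤ
  | some false => 1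
  | _ => 0

section cast
variable {K : Type*} [Field K]

theorem cst_extZ {ι κ : Type} [Fintype ι] [DecidableEq ι] (R : κ → ι → ι → ℤ) (ξ η : κ → ℤ) :
    cst K (extZ R ξ η) = extR (cst K R) (cs K ξ) (cs K η) := by
  funext k i j
  rcases k with k | (_ | x) <;> rcases i with i | (_ | _) <;> rcases j with j | (_ | _) <;>
    simp [cst, cs, extZ, extR]

theorem cs_xiZ {ι κ : Type} (ξ η : κ → ℤ) :
    cs K (xiZ (ι := ι) ξ η) = xiE (ι := ι) (cs K ξ) (cs K η) := by
  funext k
  rcases k with k | (_ | x) <;> simp [cs, xiZ, xiE]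

theorem cs_etZ {ι κ : Type} (η : κ → ℤ) :
    cs K (etZ (ι := ι) η) = etE (ι := ι) (cs K η) := by
  funext k
  rcases k with k | (_ | x) <;> simp [cs, etZ, etE]

theorem cst_R2Z : cst K R2Z = R2 (K := K) := by
  funext k i j
  cases k <;> cases i <;> cases j <;> simp [cst, R2Z, R2]

theorem cs_xi2Z : cs K xi2Z = xi2 (K := K) := by
  funext k
  cases k <;> simp [cs, xi2Z, xi2]

theorem cs_et2Z : cs K et2Z = et2 (K := K) := by
  funext k
  cases k <;> simp [cs, et2Z, et2]

theorem cst_R3Z : cst K R3Z = R3 (K := K) := by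
  funext k i j
  rcases k with _ | (_ | _) <;> rcases i with i | (_ | _) <;> rcases j with j | (_ | _) <;>
    simp [cst, R3Z, R3]

theorem cs_xi3Z : cs K xi3Z = xi3 (K := K) := by
  funext k
  rcases k with _ | (_ | _) <;> simp [cs, xi3Z, xi3]

theorem cs_et3Z : cs K et3Z = et3 (K := K) := by
  funext k
  rcases k with _ | (_ | _) <;> simp [cs, et3Z, et3]

end cast

/-- `d` integral quadratic relations on `n` letters with an identity minor, which over every field
are nil and have a good pair -/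
def AdmZ (n d : ℕ) : Prop :=
  ∃ (ι κ : Type) (_ : Fintype ι) (_ : DecidableEq ι) (_ : Fintype κ) (_ : DecidableEq κ),
    Fintype.card ι = n ∧ Fintype.card κ = d ∧
    ∃ (R : κ → ι → ι → ℤ) (ξ η : κ → ℤ) (π : κ → ι × ι),
      (∀ k k', R k (π k').1 (π k').2 = if k = k' then 1 else 0) ∧
      (∃ k, ξ k = 1) ∧ (∃ k, η k = 1) ∧
      ∀ (K : Type) [Field K], (∃ N, Nil (cst K R) N) ∧ Good (cst K R) (cs K ξ) (cs K η)

/-- the pivots of the extension -/
def piZ {ι κ : Type} (π : κ → ι × ι) : κ ⊕ Option ι → (ι ⊕ Bool) × (ι ⊕ Bool)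
  | Sum.inl k => (Sum.inl (π k).1, Sum.inl (π k).2)
  | Sum.inr none => (Sum.inr true, Sum.inr false)
  | Sum.inr (some x) => (Sum.inl x, Sum.inr false)

theorem admZ_step {n d : ℕ} (h : AdmZ n d) : AdmZ (n + 2) (d + (n + 1)) := by
  obtain ⟨ι, κ, _, _, _, _, hι, hκ, R, ξ, η, π, hπ, ⟨k1, hk1⟩, ⟨k2, hk2⟩, hK⟩ := h
  refine ⟨ι ⊕ Bool, κ ⊕ Option ι, inferInstance, inferInstance, inferInstance, inferInstance,
    ?_, ?_, extZ R ξ η, xiZ ξ η, etZ η, piZ π, ?_, ⟨Sum.inr none, rfl⟩,
    ⟨Sum.inl k2, hk2⟩, ?_⟩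
  · simp [hι]
  · simp [hι, hκ]
  · intro k k'
    rcases k with k | (_ | x) <;> rcases k' with k' | (_ | y) <;>
      simp [extZ, piZ, hπ, eq_comm]
  · intro K _
    obtain ⟨⟨N, hN⟩, hG⟩ := hK K
    rw [cst_extZ, cs_xiZ, cs_etZ]
    refine ⟨?_, good_ext _ _ _ hG⟩
    refine step _ _ _ N hN hG ⟨k1, ?_⟩ ⟨k2, ?_⟩
    · simp [cs, hk1]
    · simp [cs, hk2]

theorem admZ_two : AdmZ 2 2 := by
  refine ⟨Bool, Bool, inferInstance, inferInstance, inferInstance, inferInstance, rfl, rfl,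
    R2Z, xi2Z, et2Z, fun b => if b then (false, false) else (true, false), ?_, ⟨false, rfl⟩,
    ⟨true, rfl⟩, ?_⟩
  · decide
  · intro K _
    rw [cst_R2Z, cs_xi2Z, cs_et2Z]
    exact ⟨⟨3, nil_R2⟩, good_R2⟩

theorem admZ_three : AdmZ 3 3 := by
  refine ⟨Unit ⊕ Bool, Option Bool, inferInstance, inferInstance, inferInstance, inferInstance,
    rfl, rfl, R3Z, xi3Z, et3Z, fun b => match b with
      | none => (Sum.inr true, Sum.inr false)
      | some false => (Sum.inl (), Sum.inl ())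
      | some true => (Sum.inl (), Sum.inr false), ?_, ⟨none, rfl⟩,
    ⟨some false, rfl⟩, ?_⟩
  · decide
  · intro K _
    rw [cst_R3Z, cs_xi3Z, cs_et3Z]
    exact ⟨⟨_, nil_R3⟩, good_R3⟩

theorem admZ_all (m : ℕ) : AdmZ (m + 2) ((m + 2) ^ 2 / 4 + 1) := by
  induction m using Nat.strong_induction_on with
  | _ m ih =>
    match m with
    | 0 => exact admZ_two
    | 1 => exact admZ_three
    | m + 2 =>
      have h := admZ_step (ih m (by omega))
      have e : (m + 2) ^ 2 / 4 + 1 + (m + 2 + 1) = (m + 2 + 2) ^ 2 / 4 + 1 := by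
        have e1 : (m + 2 + 2) ^ 2 = (m + 2) ^ 2 + (m + 2 + 1) * 4 := by ring
        rw [e1, Nat.add_mul_div_right _ _ (by norm_num)]
        ring
      rwa [e] at h

/-- integral relations with an identity minor, nil over every field -/
def Has (n d : ℕ) : Prop :=
  ∃ (ι κ : Type) (_ : Fintype ι) (_ : DecidableEq ι) (_ : Fintype κ) (_ : DecidableEq κ),
    Fintype.card ι = n ∧ Fintype.card κ = d ∧
    ∃ (R : κ → ι → ι → ℤ) (π : κ → ι × ι),
      (∀ k k', R k (π k').1 (π k').2 = if k = k' then 1 else 0) ∧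
      ∀ (K : Type) [Field K], ∃ N, Nil (cst K R) N

theorem exists_has (n d : ℕ) (h : n ^ 2 < 4 * d) : ∃ d₀ ≤ d, Has n d₀ := by
  match n with
  | 0 =>
    refine ⟨0, Nat.zero_le _, Fin 0, Fin 0, inferInstance, inferInstance, inferInstance,
      inferInstance, rfl, rfl, fun k => k.elim0, fun k => k.elim0, fun k => k.elim0, ?_⟩
    intro K _
    refine ⟨1, ?_⟩
    intro f hf l hl
    match l, hl with
    | [x], _ => exact x.elim0
  | 1 =>
    refine ⟨1, by omega, Unit, Unit, inferInstance, inferInstance, inferInstance,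
      inferInstance, rfl, rfl, fun _ _ _ => 1, fun _ => ((), ()), fun _ _ => by simp, ?_⟩
    intro K _
    refine ⟨2, ?_⟩
    intro f hf l hl
    match l, hl with
    | [x, y], _ =>
      have := hf () [] [] rfl
      simpa [ev, cst] using this
  | m + 2 =>
    obtain ⟨ι, κ, i1, i2, i3, i4, hι, hκ, R, ξ, η, π, hπ, -, -, hK⟩ := admZ_all m
    refine ⟨(m + 2) ^ 2 / 4 + 1, by omega, ι, κ, i1, i2, i3, i4, hι, hκ, R, π, hπ, ?_⟩
    intro K _
    exact (hK K).1

end Pool.Agent.H22.QZ
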