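import Pool.Agent.H22.QZ.Data

/-!
# Quadratic algebras over `ℤ`: the family of `d` relations on `Fin n`
-/

set_option autoImplicit false

namespace Pool.Agent.H22.QZ

open Pool.Agent.TH40.Quad Pool.Agent.Y162.GQ

open Classical in
/-- the relation with index `s` -/
noncomputable def rel {ι κ : Type} (R : κ → ι → ι → ℤ) (π : κ → ι × ι) (s : ι × ι) : ι → ι → ℤ :=
  if h : ∃ k, π k = s then R h.choose else fun i j => if (i, j) = s then 1 else 0

theorem pi_inj {ι κ : Type} [DecidableEq κ] (R : κ → ι → ι → ℤ) (π : κ → ι × ι)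
    (hπ : ∀ k k', R k (π k').1 (π k').2 = if k = k' then 1 else 0) : Function.Injective π := by
  intro k k' h
  by_contra hne
  have h1 := hπ k k'
  rw [← h, hπ k k, if_pos rfl, if_neg hne] at h1
  exact one_ne_zero h1

theorem rel_pi {ι κ : Type} [DecidableEq κ] (R : κ → ι → ι → ℤ) (π : κ → ι × ι)
    (hπ : ∀ k k', R k (π k').1 (π k').2 = if k = k' then 1 else 0) (k : κ) :
    rel R π (π k) = R k := by
  have h : ∃ k', π k' = π k := ⟨k, rfl⟩
  unfold rel
  rw [dif_pos h]
  congr 1
  exact pi_inj R π hπ h.choose_spec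

theorem exists_family_int (n d : ℕ) (h : n ^ 2 < 4 * d) :
    ∃ c : Fin d → Fin n → Fin n → ℤ, (d ≤ n ^ 2 → ∃ σ : Fin d → Fin n × Fin n,
        ∀ (K : Type*) [CommRing K] (a : Fin d → K),
          (∀ k', ∑ k, a k * ((c k (σ k').1 (σ k').2 : ℤ) : K) = 0) → ∀ k, a k = 0) ∧
      ∀ (K : Type) [Field K], ∃ N, Nil (cst K c) N := by
  classical
  obtain ⟨d₀, hd₀, ι, κ, _, _, _, _, hι, hκ, R, π, hπ, hK⟩ := exists_has n d h
  let eι : Fin n ≃ ι := (Fintype.equivFinOfCardEq hι).symm
  have hinj := pi_inj R π hπ
  by_cases hdn : d ≤ n ^ 2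
  · obtain ⟨S, hS1, -, hS2⟩ := Finset.exists_subsuperset_card_eq
      (Finset.subset_univ (Finset.univ.image π)) (n := d)
      (by rw [Finset.card_image_of_injective _ hinj, Finset.card_univ, hκ]; exact hd₀)
      (by rw [Finset.card_univ, Fintype.card_prod, hι, ← pow_two]; exact hdn)
    let e : Fin d ≃ S := (Finset.equivFinOfCardEq hS2).symm
    have hmem : ∀ k, π k ∈ S := fun k => hS1 (Finset.mem_image_of_mem _ (Finset.mem_univ k))
    refine ⟨fun t i j => rel R π (e t) (eι i) (eι j), fun _ =>
      ⟨fun t => (eι.symm (e t : ι × ι).1, eι.symm (e t : ι × ι).2), fun K _ a ha => ?_⟩,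
      fun K _ => ?_⟩
    · have ha' : ∀ s ∈ S, ∑ t, a t * ((rel R π (e t) s.1 s.2 : ℤ) : K) = 0 := by
        intro s hs
        have := ha (e.symm ⟨s, hs⟩)
        simpa using this
      have hval : ∀ (k : κ) (s : ι × ι), rel R π s (π k).1 (π k).2 = if s = π k then 1 else 0 := by
        intro k s
        by_cases hs : ∃ k', π k' = s
        · obtain ⟨k', rfl⟩ := hs
          rw [rel_pi R π hπ, hπ]
          by_cases hkk : k' = k
          · rw [if_pos hkk, if_pos (by rw [hkk])]
          · rw [if_neg hkk, if_neg (fun h => hkk (hinj h))]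
        · unfold rel
          rw [dif_neg hs]
          simp only [Prod.mk.eta]
          by_cases hsk : s = π k
          · exact absurd ⟨k, hsk.symm⟩ hs
          · rw [if_neg hsk, if_neg (fun h => hsk h.symm)]
      have h1 : ∀ t, (∃ k, π k = e t) → a t = 0 := by
        rintro t ⟨k, hk⟩
        have h2 := ha' (π k) (hmem k)
        rw [Finset.sum_eq_single t] at h2
        · rw [hval, if_pos hk.symm] at h2
          simpa using h2
        · intro t' _ ht'
          rw [hval, if_neg, Int.cast_zero, mul_zero]
          intro h3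
          apply ht'
          apply e.injective
          apply Subtype.ext
          rw [h3, hk]
        · intro h3
          exact absurd (Finset.mem_univ t) h3
      intro t
      by_cases ht : ∃ k, π k = e t
      · exact h1 t ht
      · have h2 := ha' (e t) (e t).2
        rw [Finset.sum_eq_single t] at h2
        · unfold rel at h2
          rw [dif_neg ht] at h2
          simpa using h2
        · intro t' _ ht'
          by_cases ht2 : ∃ k, π k = e t'
          · rw [h1 t' ht2, zero_mul]
          · unfold rel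
            rw [dif_neg ht2]
            simp only [Prod.mk.eta]
            rw [if_neg, Int.cast_zero, mul_zero]
            intro h3
            apply ht'
            apply e.injective
            exact Subtype.ext h3.symm
        · intro h3
          exact absurd (Finset.mem_univ t) h3
    · obtain ⟨N, hN⟩ := hK K
      refine ⟨N, nil_transport (cst K R) N n d hN eι (fun k => e.symm ⟨π k, hmem k⟩) _ ?_⟩
      intro k i j
      simp only [cst, Equiv.apply_symm_apply]
      rw [rel_pi R π hπ]
  · let eκ : κ ≃ Fin d₀ := Fintype.equivFinOfCardEq hκ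
    refine ⟨fun t i j => if ht : (t : ℕ) < d₀ then R (eκ.symm ⟨t, ht⟩) (eι i) (eι j) else 0,
      fun h => absurd h hdn, fun K _ => ?_⟩
    obtain ⟨N, hN⟩ := hK K
    refine ⟨N, nil_transport (cst K R) N n d hN eι (fun k => ⟨eκ k, lt_of_lt_of_le (eκ k).2 hd₀⟩)
      _ ?_⟩
    intro k i j
    simp [cst]

end Pool.Agent.H22.QZ
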