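import Pool.Agent.H22.QZ.Fam

/-!
# Quadratic algebras over `ℤ`: one nilpotency index for all rings
-/

set_option autoImplicit false

namespace Pool.Agent.H22.QZ

open Pool.Agent.TH40.Quad Pool.Agent.Y162.GQ

theorem map_mdet_int {n d N : ℕ} (c : Fin d → Fin n → Fin n → ℤ) (e : W n N → Row n d N)
    (K : Type) [Field K] : ((mdet c e : ℤ) : K) = mdet (cst K c) e :=
  map_mdet (Int.castRingHom K) c e

theorem uniform_int {n d : ℕ} (c : Fin d → Fin n → Fin n → ℤ)
    (hc : ∀ (K : Type) [Field K], ∃ N, Nil (cst K c) N) :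
    ∃ N, ∀ (K : Type) [Field K], Nil (cst K c) N := by
  obtain ⟨N0, hN0⟩ := hc ℚ
  obtain ⟨e0, he0⟩ := det_of_nil _ hN0
  obtain ⟨a, ha⟩ : ∃ a : ℤ, a = mdet c e0 := ⟨_, rfl⟩
  have ha0 : a ≠ 0 := by
    intro h0
    apply he0
    rw [← map_mdet_int, ← ha, h0, Int.cast_zero]
  have hp : ∀ p : ℕ, ∃ M : ℕ, p.Prime → ∀ (K : Type) [Field K] [CharP K p],
      Nil (cst K c) M := by
    intro p
    by_cases hpp : p.Prime
    · have : Fact p.Prime := ⟨hpp⟩
      obtain ⟨Np, hNp⟩ := hc (ZMod p)
      refine ⟨Np, fun _ K _ _ => ?_⟩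
      obtain ⟨e, he⟩ := det_of_nil _ hNp
      refine nil_of_det _ e ?_
      have h3 := map_mdet (ZMod.castHom (dvd_refl p) K) (cst (ZMod p) c) e
      have h4 : (fun k i j => ZMod.castHom (dvd_refl p) K (cst (ZMod p) c k i j)) = cst K c := by
        funext k i j
        simp [cst]
      rw [h4] at h3
      rw [← h3]
      exact (map_ne_zero_iff _ (ZMod.castHom (dvd_refl p) K).injective).2 he
    · exact ⟨0, fun h => absurd h hpp⟩
  choose M hM using hp
  refine ⟨N0 + ∑ p ∈ a.natAbs.primeFactors, M p, fun K _ => ?_⟩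
  by_cases hK : ((a : ℤ) : K) = 0
  · have hdvd : (ringChar K : ℤ) ∣ a := (CharP.intCast_eq_zero_iff K (ringChar K) a).1 hK
    have hne : ringChar K ≠ 0 := by
      intro h0
      rw [h0] at hdvd
      exact ha0 (by simpa using hdvd)
    have hpr : (ringChar K).Prime := by
      rcases CharP.char_is_prime_or_zero K (ringChar K) with h4 | h4
      · exact h4
      · exact absurd h4 hne
    refine nil_mono _ (hM (ringChar K) hpr K) ?_
    have h5 : ringChar K ∈ a.natAbs.primeFactors := by
      rw [Nat.mem_primeFactors]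
      exact ⟨hpr, Int.natCast_dvd.1 hdvd, Int.natAbs_ne_zero.2 ha0⟩
    have h6 : M (ringChar K) ≤ ∑ p ∈ a.natAbs.primeFactors, M p :=
      Finset.single_le_sum (f := M) (fun _ _ => Nat.zero_le _) h5
    omega
  · refine nil_mono _ (nil_of_det _ e0 ?_) (Nat.le_add_right _ _)
    rw [← map_mdet_int, ← ha]
    exact hK

section
variable {A B : Type*} [CommRing A] [CommRing B]

theorem map_ent' (φ : A →+* B) {n d N : ℕ}
    (c : Fin d → Fin n → Fin n → A) (ρ : Row n d N) (w : W n N) :
    φ (ent c ρ w) = ent (fun k i j => φ (c k i j)) ρ w := by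
  unfold ent
  rw [map_sum]
  refine Finset.sum_congr rfl fun i _ => ?_
  rw [map_sum]
  refine Finset.sum_congr rfl fun j _ => ?_
  split_ifs
  · rfl
  · exact map_zero φ

theorem map_mdet' (φ : A →+* B) {n d N : ℕ} (c : Fin d → Fin n → Fin n → A)
    (e : W n N → Row n d N) :
    φ (mdet c e) = mdet (fun k i j => φ (c k i j)) e := by
  unfold mdet
  rw [RingHom.map_det]
  congr 1
  ext w w'
  exact map_ent' φ c (e w) w'

/-- a minor times anything is a combination of the rows -/
theorem mdet_smul_mem {n d N : ℕ} (c : Fin d → Fin n → Fin n → A) (e : W n N → Row n d N)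
    (w : W n N) : mdet c e • (Pi.single w 1 : W n N → A) ∈
      Submodule.span A (Set.range fun ρ : Row n d N => (ent c ρ : W n N → A)) := by
  have h : mdet c e • (Pi.single w 1 : W n N → A) =
      ∑ w', (Matrix.adjugate (Matrix.of fun w w' => ent c (e w) w')) w w' •
        (ent c (e w') : W n N → A) := by
    have h1 := Matrix.adjugate_mul (Matrix.of fun w w' => ent c (e w) w')
    funext v
    have h2 := congrFun (congrFun h1 w) v
    rw [Matrix.mul_apply] at h2
    rw [Finset.sum_apply, Pi.smul_apply]
    simp only [Pi.smul_apply, smul_eq_mul]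
    simp only [Matrix.of_apply, Matrix.smul_apply, smul_eq_mul] at h2
    rw [h2]
    unfold mdet
    congr 1
    rw [Matrix.one_apply, Pi.single_apply]
    simp only [eq_comm]
  rw [h]
  exact Submodule.sum_mem _ fun w' _ => Submodule.smul_mem _ _ (Submodule.subset_span ⟨e w', rfl⟩)

end

/-- an integral polynomial with value `1` at `c`, where it is invertible the relations generate
everything in degree `N` -/
theorem bezout.{u} {n d N : ℕ} (c : Fin d → Fin n → Fin n → ℤ)
    (h : ∀ (K : Type) [Field K], Nil (cst K c) N) :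
    ∃ Q : MvPolynomial (Var n d) ℤ, MvPolynomial.eval (fun y => c y.1 y.2.1 y.2.2) Q = 1 ∧
      ∀ (K : Type u) [CommRing K] (x : Var n d → K), IsUnit (MvPolynomial.aeval x Q) →
        Submodule.span K (Set.range fun ρ : Row n d N =>
          (ent (fun k i j => x (k, i, j)) ρ : W n N → K)) = ⊤ := by
  classical
  have hI : Ideal.span (Set.range fun e : W n N → Row n d N => mdet c e) = ⊤ := by
    by_contra hne
    obtain ⟨m, hm, hle⟩ := Ideal.exists_le_maximal _ hne
    let _ : Field (ℤ ⧸ m) := Ideal.Quotient.field m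
    obtain ⟨e, he⟩ := det_of_nil _ (h (ℤ ⧸ m))
    apply he
    rw [← map_mdet_int]
    have h1 : mdet c e ∈ m := hle (Ideal.subset_span ⟨e, rfl⟩)
    have h2 : Ideal.Quotient.mk m (mdet c e) = 0 := Ideal.Quotient.eq_zero_iff_mem.2 h1
    rw [← h2]
    exact (eq_intCast (Ideal.Quotient.mk m) _).symm
  let _ : Fintype (W n N → Row n d N) := Fintype.ofFinite _
  have h1 : (1 : ℤ) ∈ Ideal.span (Set.range fun e : W n N → Row n d N => mdet c e) := by
    rw [hI]; exact Submodule.mem_top
  obtain ⟨m, hm⟩ := (Submodule.mem_span_range_iff_exists_fun ℤ).1 h1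
  refine ⟨∑ e, MvPolynomial.C (m e) * mdet (fun k i j => MvPolynomial.X (k, i, j)) e, ?_, ?_⟩
  · rw [map_sum, ← hm]
    refine Finset.sum_congr rfl fun e _ => ?_
    rw [map_mul, MvPolynomial.eval_C, map_mdet', smul_eq_mul]
    simp only [MvPolynomial.eval_X]
  · intro K _ x hx
    set S := Submodule.span K (Set.range fun ρ : Row n d N =>
          (ent (fun k i j => x (k, i, j)) ρ : W n N → K)) with hS
    have h2 : ∀ w : W n N, (Pi.single w 1 : W n N → K) ∈ S := by
      intro w
      have h3 : MvPolynomial.aeval x (∑ e, MvPolynomial.C (m e) *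
          mdet (fun k i j => MvPolynomial.X (R := ℤ) (k, i, j)) e) •
          (Pi.single w 1 : W n N → K) ∈ S := by
        rw [map_sum, Finset.sum_smul]
        refine Submodule.sum_mem _ fun e _ => ?_
        rw [map_mul, mul_smul]
        refine Submodule.smul_mem _ _ ?_
        have h4 : MvPolynomial.aeval x (mdet (fun k i j => MvPolynomial.X (R := ℤ) (k, i, j)) e) =
            mdet (fun k i j => x (k, i, j)) e := by
          have h5 := map_mdet' ((MvPolynomial.aeval x : MvPolynomial (Var n d) ℤ →ₐ[ℤ] K) :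
            MvPolynomial (Var n d) ℤ →+* K) (fun k i j => MvPolynomial.X (R := ℤ) (k, i, j)) e
          simpa using h5
        rw [h4]
        exact mdet_smul_mem _ e w
      obtain ⟨u, hu⟩ := hx
      have h4 := Submodule.smul_mem S (↑u⁻¹ : K) h3
      rwa [← hu, smul_smul, Units.inv_mul, one_smul] at h4
    rw [Submodule.eq_top_iff']
    intro v
    rw [pi_eq_sum_univ' v]
    refine Submodule.sum_mem _ fun w _ => Submodule.smul_mem _ _ ?_
    exact h2 w

/-- the words of length `N` vanish in every algebra in which the relations hold -/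
theorem word_zero {n d N : ℕ} {K : Type*} [CommRing K] (x : Fin d → Fin n → Fin n → K)
    (hS : Submodule.span K (Set.range fun ρ : Row n d N => (ent x ρ : W n N → K)) = ⊤)
    {A : Type*} [Ring A] [Algebra K A] (a : Fin n → A)
    (ha : ∀ k, ∑ i, ∑ j, x k i j • (a i * a j) = 0) (l : List (Fin n)) (hl : l.length = N) :
    (l.map a).prod = 0 := by
  let φ : (W n N → K) →ₗ[K] A := Fintype.linearCombination K (fun w : W n N => (w.1.map a).prod)
  have h1 : ∀ ρ : Row n d N, φ (ent x ρ : W n N → K) = 0 := by
    rintro ⟨k, ⟨⟨l₁, l₂⟩, h12⟩⟩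
    have h2 : φ (ent x (⟨k, ⟨(l₁, l₂), h12⟩⟩ : Row n d N) : W n N → K) =
        ∑ i, ∑ j, x k i j • ((l₁ ++ i :: j :: l₂).map a).prod := by
      change Fintype.linearCombination K (fun w : W n N => (w.1.map a).prod) _ = _
      rw [Fintype.linearCombination_apply]
      unfold ent
      simp_rw [Finset.sum_smul]
      rw [Finset.sum_comm]
      refine Finset.sum_congr rfl fun i _ => ?_
      rw [Finset.sum_comm]
      refine Finset.sum_congr rfl fun j _ => ?_
      have hl : (l₁ ++ i :: j :: l₂).length = N := by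
        simp only [List.length_append, List.length_cons]
        simp only at h12
        omega
      rw [Finset.sum_eq_single (⟨l₁ ++ i :: j :: l₂, hl⟩ : W n N)]
      · simp
      · intro w _ hw
        rw [if_neg, zero_smul]
        intro h
        exact hw (Subtype.ext h)
      · intro h
        exact absurd (Finset.mem_univ _) h
    rw [h2]
    have h3 : ∀ i j, x k i j • ((l₁ ++ i :: j :: l₂).map a).prod =
        (l₁.map a).prod * (x k i j • (a i * a j)) * (l₂.map a).prod := by
      intro i j
      simp only [List.map_append, List.map_cons, List.prod_append, List.prod_cons,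
        mul_smul_comm, smul_mul_assoc, mul_assoc]
    simp_rw [h3]
    have h4 : ∑ i, ∑ j, (l₁.map a).prod * (x k i j • (a i * a j)) * (l₂.map a).prod =
        (l₁.map a).prod * (∑ i, ∑ j, x k i j • (a i * a j)) * (l₂.map a).prod := by
      simp only [Finset.mul_sum, Finset.sum_mul]
    rw [h4, ha k, mul_zero, zero_mul]
  have h2 : φ = 0 := by
    have h3 : Submodule.span K (Set.range fun ρ : Row n d N => (ent x ρ : W n N → K)) ≤
        LinearMap.ker φ := by
      refine Submodule.span_le.2 ?_
      rintro _ ⟨ρ, rfl⟩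
      exact h1 ρ
    rw [hS, top_le_iff, LinearMap.ker_eq_top] at h3
    exact h3
  have h4 : φ (Pi.single (⟨l, hl⟩ : W n N) 1) = (l.map a).prod := by
    change Fintype.linearCombination K (fun w : W n N => (w.1.map a).prod) _ = _
    rw [Fintype.linearCombination_apply_single, one_smul]
  rw [← h4, h2, LinearMap.zero_apply]

end Pool.Agent.H22.QZ
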